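import Mathlib
import Pool.Agent.MP_bcc2ed_al.H66.Main

set_option autoImplicit false
open Pool.Agent.MP_bcc2ed_al

namespace Pool.Agent.Results.MP_bcc2ed_al.EmbDimEight

theorem closure_irred (S : AddSubmonoid ℕ) :
    AddSubmonoid.closure {x : ℕ | x ∈ S ∧ x ≠ 0 ∧ ∀ a ∈ S, ∀ b ∈ S, a + b = x → a = 0 ∨ b = 0}
      = S := by
  apply le_antisymm
  · exact AddSubmonoid.closure_le.mpr fun x hx => hx.1
  · intro x hx
    induction x using Nat.strong_induction_on with
    | _ x ih =>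
      by_cases h0 : x = 0
      · rw [h0]; exact AddSubmonoid.zero_mem _
      by_cases hi : ∀ a ∈ S, ∀ b ∈ S, a + b = x → a = 0 ∨ b = 0
      · exact AddSubmonoid.subset_closure ⟨hx, h0, hi⟩
      · push Not at hi
        obtain ⟨a, ha, b, hb, hab, ha0, hb0⟩ := hi
        rw [← hab]
        exact AddSubmonoid.add_mem _ (ih a (by omega) ha) (ih b (by omega) hb)

theorem irred_subset (S : AddSubmonoid ℕ) (A : Set ℕ) (hA : AddSubmonoid.closure A = S) :
    {x : ℕ | x ∈ S ∧ x ≠ 0 ∧ ∀ a ∈ S, ∀ b ∈ S, a + b = x → a = 0 ∨ b = 0} ⊆ A := by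
  rintro x ⟨hx, h0, hi⟩
  rw [← hA] at hx
  induction hx using AddSubmonoid.closure_induction with
  | mem y hy => exact hy
  | zero => exact absurd rfl h0
  | add u v hu hv ihu ihv =>
    rcases hi u (hA ▸ hu) v (hA ▸ hv) rfl with h | h
    · subst h
      rw [zero_add] at h0 hi ⊢
      exact ihv h0 hi
    · subst h
      rw [add_zero] at h0 hi ⊢
      exact ihu h0 hi

/-- For every bound B there is a symmetric numerical semigroup of embedding dimension eight all
of whose presentations have more than B elements. -/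
theorem result (B : ℕ) :
    ∃ (S : AddSubmonoid ℕ) (F : ℤ) (n : Fin 8 → ℕ),
      ((S : Set ℕ)ᶜ).Finite ∧
      IsGreatest {x : ℤ | ¬ ∃ m ∈ S, (m : ℤ) = x} F ∧
      (∀ x : ℤ, (¬ ∃ m ∈ S, (m : ℤ) = x) → ∃ m ∈ S, (m : ℤ) = F - x) ∧
      Function.Injective n ∧ AddSubmonoid.closure (Set.range n) = S ∧
      (∀ A : Set ℕ, AddSubmonoid.closure A = S → Set.range n ⊆ A) ∧
      ∀ σ : Set ((Fin 8 → ℕ) × (Fin 8 → ℕ)),
        (∀ a b : Fin 8 → ℕ, addConGen (fun u v : Fin 8 → ℕ => (u, v) ∈ σ) a b ↔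
          ∑ i, a i * n i = ∑ i, b i * n i) →
        (B : ℕ∞) < σ.encard := by
  obtain ⟨r, hr⟩ : ∃ r : ℕ, r = B + 4 := ⟨_, rfl⟩
  obtain ⟨τ, hτ⟩ : ∃ τ : ℕ, τ = (B + 4) * (B + 3) := ⟨_, rfl⟩
  have hτ' : (τ : ℤ) = r * r - r := by rw [hτ, hr]; push_cast; ring
  have h1 : r + 1 < τ := by rw [hτ, hr]; nlinarith
  obtain ⟨a, ha, F, hF⟩ := H66.exists_symmetric r τ (by omega) hτ'
  have h2 : τ < τ * r := by nlinarith
  have h3 : τ * r + (τ * r + τ) + (2 * (τ * r) + 1) < a := by nlinarith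
  have hbig : ∀ x : ℤ, F < x →
      ∃ m ∈ H66.box a (τ * r) (τ * r + τ) (2 * (τ * r) + 1), (m : ℤ) = x := by
    intro x hx
    refine (hF x).2 ?_
    rintro ⟨m, -, hm⟩
    omega
  refine ⟨H66.box a (τ * r) (τ * r + τ) (2 * (τ * r) + 1), F,
    H66.gens a (τ * r) (τ * r + τ) (2 * (τ * r) + 1), ?_, ⟨?_, ?_⟩, ?_,
    H66.gens_inj (a := a) (by omega) h2, ?_, ?_, ?_⟩
  · refine (Set.finite_Iic F.toNat).subset fun m hm => ?_
    by_contra hle
    obtain ⟨m', hm', e⟩ := hbig m (by simp only [Set.mem_Iic, not_le] at hle; omega)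
    have : m' = m := by exact_mod_cast e
    exact hm (this ▸ hm')
  · have := (hF 0).1 ⟨0, AddSubmonoid.zero_mem _, rfl⟩
    simpa using this
  · intro x hx
    by_contra hle
    exact hx (hbig x (not_le.mp hle))
  · intro x hx
    by_contra hn
    exact hx ((hF x).2 hn)
  · rw [H66.range_gens h3]; exact closure_irred _
  · intro A hA
    rw [H66.range_gens h3]; exact irred_subset _ A hA
  · intro σ hσ
    by_cases hfin : σ.Finite
    · have := H66.card_lower h1 ha hfin.toFinset (by simpa using hσ)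
      rw [hfin.encard_eq_coe_toFinset_card]
      exact_mod_cast (by omega : B < hfin.toFinset.card)
    · rw [Set.Infinite.encard_eq hfin]
      exact ENat.coe_lt_top B

end Pool.Agent.Results.MP_bcc2ed_al.EmbDimEight
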